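import Pool.Agent.QSX.StmtsF

/-!
# Squad QSX, row CHC: homogeneous families

Products, monomial factors, the commutator.
-/

set_option autoImplicit false

namespace Pool.Agent.QSX.H31

open Matrix Finset Pool.Agent.QSX

section ev

variable {m : ℕ}

theorem evM_mul (x y : ℝ) (G H : Matrix (Fin m) (Fin m) R2) :
    evM x y (G * H) = evM x y G * evM x y H := by
  unfold evM
  exact Matrix.map_mul

theorem evM_one (x y : ℝ) : evM x y (1 : Matrix (Fin m) (Fin m) R2) = 1 := by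
  unfold evM
  exact Matrix.map_one _ (map_zero _) (map_one _)

theorem evM_pow (x y : ℝ) (G : Matrix (Fin m) (Fin m) R2) (k : ℕ) :
    evM x y (G ^ k) = evM x y G ^ k := by
  induction k with
  | zero => rw [pow_zero, pow_zero, evM_one]
  | succ k ih => rw [pow_succ, pow_succ, evM_mul, ih]

theorem evM_smul (x y c : ℝ) (G : Matrix (Fin m) (Fin m) R2) :
    evM x y (c • G) = c • evM x y G := by
  ext i j
  simp only [evM, Matrix.map_apply, Matrix.smul_apply, MvPolynomial.smul_eval, smul_eq_mul]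

theorem evM_sum {κ : Type} (s : Finset κ) (x y : ℝ) (G : κ → Matrix (Fin m) (Fin m) R2) :
    evM x y (∑ k ∈ s, G k) = ∑ k ∈ s, evM x y (G k) := by
  ext i j
  simp only [evM, Matrix.map_apply, Matrix.sum_apply, map_sum]

theorem evM_mexp (x y : ℝ) (G : Matrix (Fin m) (Fin m) R2) :
    evM x y (mexp G) = mexp (evM x y G) := by
  unfold mexp
  rw [evM_sum]
  refine Finset.sum_congr rfl fun k _ => ?_
  rw [evM_smul, evM_pow]

end ev

section uu

variable {R : Type} [CommRing R] {m : ℕ}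

theorem UU.mul' {g h : Matrix (Fin m) (Fin m) R} (hg : UU g) (hh : UU h) : UU (g * h) := by
  have e : g * h - 1 = (g - 1) * (h - 1) + (g - 1) + (h - 1) := by noncomm_ring
  have h1 : SU (g - 1) := hg
  have h2 : SU (h - 1) := hh
  change SU (g * h - 1)
  rw [e]
  exact ((h1.mul h2).add h1).add h2

end uu

/-- rational matrices -/
def Rt {m : ℕ} (A : Matrix (Fin m) (Fin m) ℝ) : Prop := ∀ i j, ∃ q : ℚ, A i j = (q : ℝ)

theorem rt_iff {m : ℕ} (A : Matrix (Fin m) (Fin m) ℝ) :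
    Rt A ↔ ∃ B : Matrix (Fin m) (Fin m) ℚ, A = B.map (Rat.castHom ℝ) := by
  constructor
  · intro h
    choose B hB using h
    exact ⟨B, by ext i j; rw [hB i j]; rfl⟩
  · rintro ⟨B, rfl⟩ i j
    exact ⟨B i j, rfl⟩

theorem Rt.mul {m : ℕ} {A B : Matrix (Fin m) (Fin m) ℝ} (hA : Rt A) (hB : Rt B) : Rt (A * B) := by
  obtain ⟨A', rfl⟩ := (rt_iff A).1 hA
  obtain ⟨B', rfl⟩ := (rt_iff B).1 hB
  exact (rt_iff _).2 ⟨A' * B', Matrix.map_mul.symm⟩

theorem Rt.one {m : ℕ} : Rt (1 : Matrix (Fin m) (Fin m) ℝ) :=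
  (rt_iff _).2 ⟨1, (Matrix.map_one _ (map_zero _) (map_one _)).symm⟩

theorem Rt.pow {m : ℕ} {A : Matrix (Fin m) (Fin m) ℝ} (hA : Rt A) (k : ℕ) : Rt (A ^ k) := by
  induction k with
  | zero => rw [pow_zero]; exact Rt.one
  | succ k ih => rw [pow_succ]; exact ih.mul hA

theorem Rt.smul {m : ℕ} {A : Matrix (Fin m) (Fin m) ℝ} (hA : Rt A) {c : ℝ} (q : ℚ)
    (hc : c = (q : ℝ)) : Rt (c • A) := by
  intro i j
  obtain ⟨r, hr⟩ := hA i j
  exact ⟨q * r, by rw [Matrix.smul_apply, hr, hc, smul_eq_mul]; push_cast; ring⟩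

theorem Rt.sum {m : ℕ} {κ : Type} (s : Finset κ) {A : κ → Matrix (Fin m) (Fin m) ℝ}
    (hA : ∀ k ∈ s, Rt (A k)) : Rt (∑ k ∈ s, A k) := by
  classical
  induction s using Finset.induction_on with
  | empty =>
    intro i j
    exact ⟨0, by simp⟩
  | insert a s ha ih =>
    intro i j
    rw [Finset.sum_insert ha]
    obtain ⟨r, hr⟩ := hA a (Finset.mem_insert_self a s) i j
    obtain ⟨r', hr'⟩ := ih (fun k hk => hA k (Finset.mem_insert_of_mem hk)) i j
    exact ⟨r + r', by rw [Matrix.add_apply, hr, hr']; push_cast; ring⟩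

theorem Rt.mexp {m : ℕ} {A : Matrix (Fin m) (Fin m) ℝ} (hA : Rt A) : Rt (mexp A) := by
  unfold QSX.mexp
  refine Rt.sum _ fun k _ => (hA.pow k).smul ((k.factorial : ℚ)⁻¹) ?_
  push_cast
  rfl

/-- families without the condition on the axes -/
structure PF {X : Dat} (hX : X.RSplit) (l l' : hX.ι) (G : Matrix (Fin X.m) (Fin X.m) R2) :
    Prop where
  uu : UU G
  mem : ∀ x y, ∃ z ∈ X.n, evM x y G = mexp z
  hom : ∀ (a : X.b) (x y : ℝ), diagonal (fun i => Real.exp ((a : Fin X.m → ℝ) i)) * evM x y G *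
    diagonal (fun i => Real.exp (-(a : Fin X.m → ℝ) i)) =
      evM (Real.exp (hX.rt l a) * x) (Real.exp (hX.rt l' a) * y) G
  rat : ∀ i j, ∃ q : ℚ, evM 1 1 G i j = (q : ℝ)

theorem diag_inv {m : ℕ} (c : Fin m → ℝ) :
    diagonal (fun i => Real.exp (-c i)) * diagonal (fun i => Real.exp (c i)) = 1 := by
  rw [diagonal_mul_diagonal, ← diagonal_one]
  congr 1; funext i; rw [← Real.exp_add, neg_add_cancel, Real.exp_zero]

theorem PF.mul (hB : BchStmt) {X : Dat} {hX : X.RSplit} {l l' : hX.ι}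
    {G H : Matrix (Fin X.m) (Fin X.m) R2} (hG : PF hX l l' G) (hH : PF hX l l' H) :
    PF hX l l' (G * H) := by
  refine ⟨UU.mul' hG.uu hH.uu, fun x y => ?_, fun a x y => ?_, ?_⟩
  · obtain ⟨z1, h1, e1⟩ := hG.mem x y
    obtain ⟨z2, h2, e2⟩ := hH.mem x y
    obtain ⟨z, hz, ez⟩ := hB ℝ X.m X.n X.su X.lie z1 h1 z2 h2
    refine ⟨z, hz, ?_⟩
    rw [evM_mul, e1, e2, ← ue_val (X.su z1 h1), ← ue_val (X.su z2 h2), ← Units.val_mul, ez,
      ue_val (X.su z hz)]
  · rw [evM_mul, evM_mul, ← hG.hom, ← hH.hom]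
    set D := diagonal fun i => Real.exp ((a : Fin X.m → ℝ) i) with hD
    set D' := diagonal fun i => Real.exp (-(a : Fin X.m → ℝ) i) with hD'
    have h1 : D' * D = 1 := diag_inv _
    calc D * (evM x y G * evM x y H) * D' = D * evM x y G * 1 * evM x y H * D' := by
          rw [mul_one]; simp only [mul_assoc]
      _ = D * evM x y G * (D' * D) * evM x y H * D' := by rw [h1]
      _ = D * evM x y G * D' * (D * evM x y H * D') := by simp only [mul_assoc]
  · rw [evM_mul]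
    exact Rt.mul hG.rat hH.rat

theorem Fam.pf {X : Dat} {hX : X.RSplit} {l l' : hX.ι}
    {G : Matrix (Fin X.m) (Fin X.m) R2} (hG : Fam hX l l' G) : PF hX l l' G :=
  ⟨hG.uu, hG.mem, hG.hom, hG.rat⟩

theorem e_mem {X : Dat} (hX : X.RSplit) (t : hX.ι) : hX.e t ∈ X.n := by
  rw [← hX.span_e]
  exact Submodule.subset_span ⟨t, rfl⟩

/-- the matrix of the monomial -/
noncomputable def mono {X : Dat} (hX : X.RSplit) (t : hX.ι) (p q : ℕ) (c : ℝ) :
    Matrix (Fin X.m) (Fin X.m) R2 :=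
  (MvPolynomial.C c * MvPolynomial.X 0 ^ p * MvPolynomial.X 1 ^ q : R2) •
    (hX.e t).map (MvPolynomial.C : ℝ →+* R2)

theorem evM_mono {X : Dat} (hX : X.RSplit) (t : hX.ι) (p q : ℕ) (c x y : ℝ) :
    evM x y (mono hX t p q c) = (c * x ^ p * y ^ q) • hX.e t := by
  ext i j
  simp only [evM, mono, Matrix.map_apply, Matrix.smul_apply, smul_eq_mul, map_mul, map_pow,
    MvPolynomial.eval_C, MvPolynomial.eval_X, Matrix.cons_val_zero, Matrix.cons_val_one]

theorem su_mono {X : Dat} (hX : X.RSplit) (t : hX.ι) (p q : ℕ) (c : ℝ) :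
    SU (mono hX t p q c) := by
  intro i j h
  rw [mono, Matrix.smul_apply, Matrix.map_apply, X.su _ (e_mem hX t) i j h, map_zero, smul_zero]

/-- conjugation of a root vector -/
theorem conj_e {X : Dat} (hX : X.RSplit) (t : hX.ι) (a : X.b) :
    diagonal (fun i => Real.exp ((a : Fin X.m → ℝ) i)) * hX.e t *
      diagonal (fun i => Real.exp (-(a : Fin X.m → ℝ) i)) = Real.exp (hX.rt t a) • hX.e t := by
  ext i j
  rw [Matrix.mul_diagonal, Matrix.diagonal_mul, Matrix.smul_apply, smul_eq_mul]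
  have h := congrFun (congrFun (hX.wt t a) i) j
  rw [Matrix.sub_apply, Matrix.diagonal_mul, Matrix.mul_diagonal, Matrix.smul_apply,
    smul_eq_mul] at h
  by_cases h0 : hX.e t i j = 0
  · rw [h0]; ring
  · have h1 : (a : Fin X.m → ℝ) i - (a : Fin X.m → ℝ) j = hX.rt t a := by
      apply mul_right_cancel₀ h0
      rw [← h]; ring
    rw [← h1, sub_eq_add_neg, Real.exp_add]
    ring

theorem conj_mexp (hM : McjStmt) {m : ℕ} (c : Fin m → ℝ) (z : Matrix (Fin m) (Fin m) ℝ)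
    (hz : SU z) :
    diagonal (fun i => Real.exp (c i)) * mexp z * diagonal (fun i => Real.exp (-c i)) =
      mexp (diagonal (fun i => Real.exp (c i)) * z * diagonal (fun i => Real.exp (-c i))) := by
  have hs : SU (diagonal (fun i => Real.exp (c i)) * z * diagonal (fun i => Real.exp (-c i))) := by
    intro i j h
    rw [Matrix.mul_diagonal, Matrix.diagonal_mul, hz i j h, mul_zero, zero_mul]
  have h := congrArg (fun u : (Matrix (Fin m) (Fin m) ℝ)ˣ => (u : Matrix (Fin m) (Fin m) ℝ))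
    (hM ℝ m (ud c) z hz hs)
  simp only [Units.val_mul] at h
  rw [ue_val hz] at h
  have h2 := ue_val hs
  exact h.symm.trans h2

theorem pf_mono (hM : McjStmt) (hL : LgmStmt) {X : Dat} (hX : X.RSplit) (l l' t : hX.ι)
    (p q : ℕ) (c : ℚ) (h : hX.rt t = (p : ℝ) • hX.rt l + (q : ℝ) • hX.rt l') :
    PF hX l l' (mexp (mono hX t p q (c : ℝ))) := by
  refine ⟨((hL R2 X.m).1 _ (su_mono hX t p q c)).1, fun x y => ?_, fun a x y => ?_, ?_⟩
  · refine ⟨(c * x ^ p * y ^ q) • hX.e t, X.n.smul_mem _ (e_mem hX t), ?_⟩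
    rw [evM_mexp, evM_mono]
  · rw [evM_mexp, evM_mono, evM_mexp, evM_mono,
      conj_mexp hM _ _ ((X.su _ (e_mem hX t)).smul _)]
    congr 1
    rw [mul_smul_comm, smul_mul_assoc, conj_e, smul_smul]
    congr 1
    have h1 : hX.rt t a = p * hX.rt l a + q * hX.rt l' a := by
      rw [h, LinearMap.add_apply, LinearMap.smul_apply, LinearMap.smul_apply, smul_eq_mul,
        smul_eq_mul]
    rw [h1, Real.exp_add, Real.exp_nat_mul, Real.exp_nat_mul, mul_pow, mul_pow]
    ring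
  · rw [evM_mexp, evM_mono]
    refine Rt.mexp (Rt.smul (hX.rat t) c ?_)
    ring

theorem chc (hM : McjStmt) (hB : BchStmt) (hL : LgmStmt) : ChcStmt := by
  intro X hX l l'
  refine ⟨fun G H hG hH => ?_, fun t p q c hp hq h => ?_, ?_⟩
  · have h := PF.mul hB (Fam.pf hG) (Fam.pf hH)
    refine ⟨h.uu, h.mem, h.hom, fun x => ⟨?_, ?_⟩, h.rat⟩
    · rw [evM_mul, (hG.triv x).1, (hH.triv x).1, mul_one]
    · rw [evM_mul, (hG.triv x).2, (hH.triv x).2, mul_one]
  · have h1 := pf_mono hM hL hX l l' t p q c h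
    refine ⟨mexp (mono hX t p q (c : ℝ)), ⟨h1.uu, h1.mem, h1.hom, fun x => ⟨?_, ?_⟩, h1.rat⟩,
      fun x y => ?_⟩
    · rw [evM_mexp, evM_mono, zero_pow (by omega), mul_zero, zero_smul, mexp_zero]
    · rw [evM_mexp, evM_mono, zero_pow (by omega), mul_zero, zero_mul, zero_smul, mexp_zero]
    · rw [evM_mexp, evM_mono]
  · have hl : hX.rt l = ((1 : ℕ) : ℝ) • hX.rt l + ((0 : ℕ) : ℝ) • hX.rt l' := by
      rw [Nat.cast_one, Nat.cast_zero, one_smul, zero_smul, add_zero]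
    have hl' : hX.rt l' = ((0 : ℕ) : ℝ) • hX.rt l + ((1 : ℕ) : ℝ) • hX.rt l' := by
      rw [Nat.cast_one, Nat.cast_zero, one_smul, zero_smul, zero_add]
    have hG := PF.mul hB (PF.mul hB (PF.mul hB (pf_mono hM hL hX l l' l 1 0 1 hl)
      (pf_mono hM hL hX l l' l' 0 1 1 hl')) (pf_mono hM hL hX l l' l 1 0 (-1) hl))
      (pf_mono hM hL hX l l' l' 0 1 (-1) hl')
    have hv : ∀ x y : ℝ, evM x y (mexp (mono hX l 1 0 ((1 : ℚ) : ℝ)) *
        mexp (mono hX l' 0 1 ((1 : ℚ) : ℝ)) * mexp (mono hX l 1 0 ((-1 : ℚ) : ℝ)) *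
        mexp (mono hX l' 0 1 ((-1 : ℚ) : ℝ))) =
      mexp (x • hX.e l) * mexp (y • hX.e l') * mexp (-(x • hX.e l)) * mexp (-(y • hX.e l')) := by
      intro x y
      simp only [evM_mul, evM_mexp, evM_mono]
      push_cast
      congr 1
      · congr 1
        · congr 1
          · congr 2; ring
          · congr 2; ring
        · congr 1
          rw [← neg_smul]; congr 1; ring
      · congr 1
        rw [← neg_smul]; congr 1; ring
    have hse : ∀ (t : hX.ι) (x : ℝ), SU (x • hX.e t) := fun t x => (X.su _ (e_mem hX t)).smul x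
    refine ⟨_, ⟨hG.uu, hG.mem, hG.hom, fun x => ⟨?_, ?_⟩, hG.rat⟩, hv⟩
    · rw [hv, zero_smul, neg_zero, mexp_zero, mul_one, mul_one, mexp_mul_neg (hse l x)]
    · rw [hv, zero_smul, neg_zero, mexp_zero, one_mul, mul_one, mexp_mul_neg (hse l' x)]

end Pool.Agent.QSX.H31
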